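import Pool.Agent.H24.CL.TargetsK

/-!
# S1: the general step (`MP_e21eee_nt`, all `k`)
-/

set_option autoImplicit false

open Finset MeasureTheory

namespace Pool.Agent.H11.CLK

open Pool.Agent.H24.CL

/-- the factor `ZB` is nonnegative -/
theorem ZB_nonneg {k q : ℕ} {W : ℕ → Set (X k)} {R : ℕ → ℕ} {n G : ℕ → ℝ} {B : ℝ}
    (hL : Lev k q W R n G B) {r : ℕ} (hr : 1 ≤ r) : 0 ≤ ZB k q r R n G := by
  unfold ZB
  refine mul_nonneg (Finset.prod_nonneg fun l hl => ?_) (Finset.prod_nonneg fun l hl => ?_)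
  · rw [Finset.mem_Icc] at hl
    have h1 := (hL.hn l hl.1 (by omega)).1
    exact pow_nonneg (div_nonneg (Nat.cast_nonneg _) (by linarith)) _
  · rw [Finset.mem_Icc] at hl
    have h1 := hL.hG l (by omega) (by omega)
    exact pow_nonneg (by linarith) _

theorem pf_S1 (hAV : TK_AV) (hZL : TK_ZL) (_hHM : TK_HM) (hTO : T_TO) : TK_S1 := by
  classical
  intro k hk
  obtain ⟨C, c, hC, hZ⟩ := hZL k hk
  refine ⟨(Nat.factorial k : ℝ) * C, c, ?_, ?_⟩
  · have h1 : (1 : ℝ) ≤ (Nat.factorial k : ℝ) := by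
      exact_mod_cast Nat.succ_le_of_lt (Nat.factorial_pos k)
    nlinarith
  intro q W R n G B hq hkq hm0 hm1 hL hnq hG0 hCar hCnt hn0
  have hq1 : 1 ≤ q := hq.one_lt.le
  have hk3 : (3 : ℝ) ≤ (k : ℝ) := by exact_mod_cast hk
  have hn0' : 0 < n 0 := by linarith
  have hZB : 0 ≤ ZB k q 1 R n G := ZB_nonneg hL le_rfl
  have hB0 : 0 ≤ B := by linarith [hL.hB]
  have hC0 : 0 ≤ C := by linarith
  have hfac : (0 : ℝ) ≤ (Nat.factorial k : ℝ) := Nat.cast_nonneg _
  have hGk : 0 ≤ G 0 ^ k := pow_nonneg (by linarith) _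
  have hqn : 0 ≤ (q : ℝ) / n 0 := div_nonneg (Nat.cast_nonneg _) hn0'.le
  have key := hAV k q 1 hq1 (by omega) (W 0) (W 1) ((Nat.factorial k : ℝ) * G 0 ^ k / n 0)
    (C * B ^ c * ((q : ℝ) / n 0) ^ (k - 1) * ZB k q 1 R n G) hm0 hm1
    (div_nonneg (mul_nonneg hfac hGk) hn0'.le)
    (mul_nonneg (mul_nonneg (mul_nonneg hC0 (pow_nonneg hB0 _)) (pow_nonneg hqn _)) hZB) ?_ ?_
  · have h1 : (Nat.factorial k : ℝ) * G 0 ^ k / n 0 *
        (q * (C * B ^ c * ((q : ℝ) / n 0) ^ (k - 1) * ZB k q 1 R n G)) =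
        (Nat.factorial k : ℝ) * C * B ^ c * G 0 ^ k * ((q : ℝ) / n 0) ^ k *
          ZB k q 1 R n G := by
      have h2 : ((q : ℝ) / n 0) ^ k = ((q : ℝ) / n 0) ^ (k - 1) * ((q : ℝ) / n 0) := by
        rw [← pow_succ]
        congr 1
        omega
      rw [h2]
      ring
    rw [h1] at key
    exact key
  · intro a Y hY
    have hsum0 : (0 : ℝ) ≤ ∑ b ∈ Bs k q 1 (W 0) (W 1) a, (cc k q 1 b (W 1) a : ℝ) :=
      Finset.sum_nonneg fun _ _ => Nat.cast_nonneg _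
    rcases Y.eq_empty_or_nonempty with h0 | ⟨y, hy⟩
    · rw [h0, Finset.card_empty, Nat.cast_zero]
      exact mul_nonneg (div_nonneg (mul_nonneg hfac hGk) hn0'.le) hsum0
    · have hYc : (Y.card : ℝ) ≤ (Nat.factorial k : ℝ) * G 0 ^ k := by
        refine hCnt Y (fun y hy => (hY y hy).1) fun y hy y' hy' => ?_
        have h1 := (H k q 1).sub_mem (hY y hy).2 (hY y' hy').2
        have h2 : y - a - (y' - a) = y - y' := by abel
        rwa [h2] at h1
      obtain ⟨D, hD, hDV, hDn⟩ := hCar y (hY y hy).1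
      have hya : a + (y - a) = y := by abel
      have hDB : D ⊆ Bs k q 1 (W 0) (W 1) a := by
        intro b hb
        unfold Bs
        rw [Finset.mem_filter]
        refine ⟨hD hb, y - a, (hY y hy).2, ?_, ?_⟩
        · rw [hya]; exact (hY y hy).1
        · rw [hya]; exact hDV b hb
      have hcc : ∀ b ∈ D, (1 : ℝ) ≤ (cc k q 1 b (W 1) a : ℝ) := by
        intro b hb
        have h1 : 0 < cc k q 1 b (W 1) a := by
          unfold cc
          refine Finset.card_pos.mpr ⟨phi q b y, ?_⟩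
          rw [Finset.mem_filter]
          refine ⟨Finset.mem_image.mpr ⟨y - a, ?_, ?_⟩, hDV b hb⟩
          · exact ((hTO k q hq1).2.1 1 (y - a)).mpr (hY y hy).2
          · rw [hya]
        exact_mod_cast h1
      have hs : n 0 ≤ ∑ b ∈ Bs k q 1 (W 0) (W 1) a, (cc k q 1 b (W 1) a : ℝ) := by
        calc n 0 ≤ (D.card : ℝ) := hDn
          _ = ∑ b ∈ D, (1 : ℝ) := by simp
          _ ≤ ∑ b ∈ D, (cc k q 1 b (W 1) a : ℝ) := Finset.sum_le_sum hcc
          _ ≤ _ := Finset.sum_le_sum_of_subset_of_nonneg hDB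
              fun _ _ _ => Nat.cast_nonneg _
      calc (Y.card : ℝ) ≤ (Nat.factorial k : ℝ) * G 0 ^ k := hYc
        _ = (Nat.factorial k : ℝ) * G 0 ^ k / n 0 * n 0 := by
            rw [div_mul_cancel₀ _ hn0'.ne']
        _ ≤ _ := mul_le_mul_of_nonneg_left hs (div_nonneg (mul_nonneg hfac hGk) hn0'.le)
  · intro b hb Y hYB hYk hYs
    refine hZ q W R n G B hq hkq hL 1 b (n 0) Y le_rfl (by omega) hb hn0 ?_ hYk hYs
    intro y hy
    have h1 := hYB y hy
    unfold Bs at h1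
    rw [Finset.mem_filter] at h1
    obtain ⟨-, h, hh, hW, -⟩ := h1
    obtain ⟨D, hD, hDV, hDn⟩ := hCar (y + h) hW
    exact ⟨D, hD, fun b' hb' => ⟨h, hh, hDV b' hb'⟩, hDn⟩

end Pool.Agent.H11.CLK
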